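import Pool.Agent.H76.SD.Targets

/-!
# SETH for semidefinite programming: module KER

A kernel with the cocycle property is positive semidefinite.
-/

set_option autoImplicit false

namespace Pool.Agent.H12.SD

open Finset Pool.Agent.H76.SD

theorem ker : T_KER := by
  classical
  intro ι _ K h1 hconj hcoc c
  have hsym : ∀ i j, K i j ≠ 0 → K j i ≠ 0 := by
    intro i j h h0
    apply h
    have := hconj j i
    rw [this, h0, map_zero]
  set N : ι → Finset ι := fun i => univ.filter fun j => K i j ≠ 0 with hN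
  have hNmem : ∀ i j, j ∈ N i ↔ K i j ≠ 0 := by
    intro i j
    rw [hN]
    simp
  have hsub : ∀ i j, K i j ≠ 0 → N j ⊆ N i := by
    intro i j h k hk
    rw [hNmem] at hk ⊢
    rw [← hcoc i j k h hk]
    exact mul_ne_zero h hk
  have hNeq : ∀ i j, K i j ≠ 0 → N i = N j := fun i j h =>
    Subset.antisymm (hsub j i (hsym i j h)) (hsub i j h)
  have hpos : ∀ i, 0 < (N i).card := by
    intro i
    refine card_pos.2 ⟨i, ?_⟩
    rw [hNmem, h1 i]
    exact one_ne_zero
  have key : ∀ j j', ∑ i, (1 / ((N i).card : ℂ)) * (K j i * K i j') = K j j' := by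
    intro j j'
    by_cases h : K j j' = 0
    · rw [h]
      refine sum_eq_zero fun i _ => ?_
      by_cases h2 : K j i = 0
      · rw [h2]; ring
      by_cases h3 : K i j' = 0
      · rw [h3]; ring
      exfalso
      have h4 := hcoc j i j' h2 h3
      rw [h] at h4
      exact mul_ne_zero h2 h3 h4
    · have hterm : ∀ i, (1 / ((N i).card : ℂ)) * (K j i * K i j') =
          if i ∈ N j then (1 / ((N j).card : ℂ)) * K j j' else 0 := by
        intro i
        by_cases h2 : K j i = 0
        · rw [if_neg (by rw [hNmem]; exact fun h3 => h3 h2), h2]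
          ring
        · rw [if_pos ((hNmem j i).2 h2)]
          have h3 : K i j' ≠ 0 := by
            rw [← hcoc i j j' (hsym j i h2) h]
            exact mul_ne_zero (hsym j i h2) h
          rw [hcoc j i j' h2 h3, hNeq j i h2]
      rw [sum_congr rfl fun i _ => hterm i, ← sum_filter, sum_const, nsmul_eq_mul]
      have h5 : (univ.filter fun i => i ∈ N j) = N j := by
        ext i
        simp
      rw [h5]
      have h6 : ((N j).card : ℂ) ≠ 0 := by
        exact_mod_cast (hpos j).ne'
      field_simp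
  refine ⟨∑ i, (1 / ((N i).card : ℝ)) * Complex.normSq (∑ j, K i j * c j),
    sum_nonneg fun i _ => mul_nonneg (div_nonneg zero_le_one (Nat.cast_nonneg _))
      (Complex.normSq_nonneg _), ?_⟩
  have e1 : ∑ j, ∑ j', (starRingEnd ℂ) (c j) * K j j' * c j' =
      ∑ j, ∑ j', ∑ i, (1 / ((N i).card : ℂ)) *
        (((starRingEnd ℂ) (c j) * K j i) * (K i j' * c j')) := by
    refine sum_congr rfl fun j _ => sum_congr rfl fun j' _ => ?_
    rw [← key j j', mul_sum, sum_mul]
    refine sum_congr rfl fun i _ => ?_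
    ring
  have e2 : ∀ i, (starRingEnd ℂ) (∑ j, K i j * c j) = ∑ j, (starRingEnd ℂ) (c j) * K j i := by
    intro i
    rw [map_sum]
    refine sum_congr rfl fun j _ => ?_
    rw [map_mul, ← hconj i j, mul_comm]
  rw [e1]
  push_cast
  have e3 : ∀ i, (Complex.normSq (∑ j, K i j * c j) : ℂ) =
      ∑ j, ∑ j', ((starRingEnd ℂ) (c j) * K j i) * (K i j' * c j') := by
    intro i
    rw [Complex.normSq_eq_conj_mul_self, e2, sum_mul_sum]
  have e4 : ∀ i ∈ (univ : Finset ι), (1 / ((N i).card : ℂ)) *
      (Complex.normSq (∑ j, K i j * c j) : ℂ) = ∑ j, ∑ j', (1 / ((N i).card : ℂ)) *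
        (((starRingEnd ℂ) (c j) * K j i) * (K i j' * c j')) := by
    intro i _
    rw [e3, mul_sum]
    refine sum_congr rfl fun j _ => ?_
    rw [mul_sum]
  rw [sum_congr rfl e4]
  calc ∑ j, ∑ j', ∑ i, (1 / ((N i).card : ℂ)) *
        (((starRingEnd ℂ) (c j) * K j i) * (K i j' * c j'))
      = ∑ j, ∑ i, ∑ j', (1 / ((N i).card : ℂ)) *
        (((starRingEnd ℂ) (c j) * K j i) * (K i j' * c j')) :=
        sum_congr rfl fun j _ => sum_comm
    _ = _ := sum_comm

end Pool.Agent.H12.SD
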